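import Pool.Agent.Run7.h403.Main

/-!
# Almost all real quadratic fields have many primes `p` with `T_p ≠ 1`

`Run7.h403.TT K p` is the group `T_p(K)` of the problem: the elements of `p`-power order in the
inverse limit of the ray class groups of `K` modulo the powers of `p` (class field theory).
`Run7.h403.Main.ManyExc δ t` says that every quadratic field with a root of `x² - t x + 1` has at
least `(1 - δ) log log t` primes `p` with `T_p ≠ 1`.
-/

set_option autoImplicit false

theorem Pool.Agent.Results.MP_fb9d38_nt.AlmostAllRealQuadratic.result (δ : ℝ) (hδ : 0 < δ) :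
    Filter.Tendsto
      (fun X : ℕ => (({t : ℕ | t < X ∧ Run7.h403.Main.ManyExc δ t}.ncard : ℝ)) / X)
      Filter.atTop (nhds 1) :=
  Run7.h403.Main.main δ hδ
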