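import Pool.Agent.Run7.h403.Simul

/-!
# Real quadratic fields with `T_p ≠ 1` for all odd primes `p ≤ y`

`Run7.h403.TT K p` is the group `T_p(K)` of the problem: the elements of `p`-power order in the
inverse limit of the ray class groups of `K` modulo the powers of `p` (class field theory).
-/

set_option autoImplicit false

theorem Pool.Agent.Results.MP_fb9d38_nt.SimultaneousExceptional.result :
    ∃ C : ℝ, ∀ y : ℕ, 3 ≤ y → ∃ D : ℕ, (D : ℝ) ≤ Real.exp (C * y) ∧ ¬ IsSquare D ∧
      ∀ (K : Type) [Field K] [NumberField K], Module.finrank ℚ K = 2 →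
        (∃ α : K, α ^ 2 = D) →
        ∀ p : ℕ, p.Prime → p ≠ 2 → p ≤ y → Run7.h403.TT K p ≠ ⊥ :=
  Run7.h403.Simul.main
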