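import Pool.Agent.Run7.h403.Even

/-!
# For each real quadratic field the order of `T_p` is a square for infinitely many `p`

`Run7.h403.TT K p` is the group `T_p(K)` of the problem: the elements of `p`-power order in the
inverse limit of the ray class groups of `K` modulo the powers of `p` (class field theory).
-/

set_option autoImplicit false

theorem Pool.Agent.Results.MP_fb9d38_nt.SquareOrder.result
    (D : ℕ) (hD : ¬ IsSquare D) (K : Type) [Field K] [NumberField K]
    (h2 : Module.finrank ℚ K = 2) (hα : ∃ α : K, α ^ 2 = D) (c : ℕ) (hc : 0 < c) :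
    {p : ℕ | p.Prime ∧ jacobiSym (-(c : ℤ)) p = -1 ∧
      ∃ m : ℕ, Nat.card (Run7.h403.TT K p) = p ^ (2 * m)}.Infinite :=
  Run7.h403.Even.main D hD K h2 hα c hc
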